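import Pool.Agent.H68.L.R_seed8.W313.BMX.Main
import Pool.Agent.H68.L.R_seed8.W335.BMX.Odd
import Pool.Agent.H68.L.R_seed8.W310.BMX.Rep
import Pool.Agent.H68.L.R_seed8.W975.BMX.Two
import Pool.Agent.H68.L.R_seed8.W108.BMX.Two
import Pool.Agent.H68.L.R_seed8.W930.BMX.Val
import Pool.Agent.H68.L.R_seed8.W928.BMX.Rec
import Pool.Agent.H68.L.R_seed8.W928.BMX.Fin

/-!
# The unconditional theorems
-/

set_option autoImplicit false
set_option linter.all false

namespace Pool.Agent.W313.BMX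

open Finset Polynomial

theorem hrec : S_REC := Pool.Agent.W928.BMX.rec_ Pool.Agent.W335.BMX.odd2 Pool.Agent.W335.BMX.odd3
  Pool.Agent.W975.BMX.two1 Pool.Agent.W975.BMX.two2 Pool.Agent.W975.BMX.two3
  Pool.Agent.W108.BMX.two4 Pool.Agent.W108.BMX.two5

theorem hexact : S_EXACT := exact_ Pool.Agent.W335.BMX.odd1 Pool.Agent.W335.BMX.odd2
  Pool.Agent.W335.BMX.odd3 Pool.Agent.W310.BMX.odd4 Pool.Agent.W975.BMX.two1
  Pool.Agent.W975.BMX.two2 Pool.Agent.W975.BMX.two3 Pool.Agent.W108.BMX.two4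
  Pool.Agent.W108.BMX.two5 hrec

theorem hfin : S_FIN := Pool.Agent.W928.BMX.fin_ Pool.Agent.W310.BMX.odd4
  Pool.Agent.W335.BMX.odd1 Pool.Agent.W930.BMX.val_

variable {K : Type} [Fintype K] [DecidableEq K]

theorem sel (f : K → ℤ[X]) (hf : Admissible f) (d : ℤ) (hd : d ≠ 0) (P : AdelicPoint f d)
    (hP : Orthogonal P) : Pool.Agent.W262.TW.Sel f d :=
  sel_of_orthogonal hfin Pool.Agent.W930.BMX.val_ hexact f hf d hd P hP

theorem finite_ (f : K → ℤ[X]) (hf : Admissible f) (d : ℤ) (hd : d ≠ 0) (P : AdelicPoint f d)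
    (k : K) (e : ℤ) (he : e ≠ 0) : (ram (values P k) e).Finite :=
  ram_finite hfin Pool.Agent.W335.BMX.odd2 f hf d hd P k e he

end Pool.Agent.W313.BMX
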