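import Pool.Agent.H68.L.R_seed8.W313.BMX.Exact
import Pool.Agent.H68.L.R_seed8.W262.TW.Stm

/-!
# The Brauer-Manin set and the coverings
-/

set_option autoImplicit false
set_option linter.all false
set_option maxHeartbeats 1000000

namespace Pool.Agent.W313.BMX

open Finset Polynomial

section K

variable {K : Type} [Fintype K] [DecidableEq K]

/-- An adelic point of the curve `d * y ^ 2 = ∏ k, f k (x, w)`. -/
structure AdelicPoint (f : K → ℤ[X]) (d : ℤ) where
  /-- the real component -/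
  re : Point f d ℝ
  /-- the `p`-adic components -/
  pa : ∀ p : Nat.Primes, Point f d ℚ_[(p : ℕ)]

/-- The family of the values of the `k`-th factor at the components of an adelic point. -/
noncomputable def values {f : K → ℤ[X]} {d : ℤ} (P : AdelicPoint f d) (k : K) : Fam :=
  ⟨value P.re k, fun p => value (P.pa p) k⟩

/-- The adelic point is orthogonal to the classes `(f k, e)` of the Brauer group: the number of the
places at which the value of the class is not trivial is even, the sum of the invariants is zero. -/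
def Orthogonal {f : K → ℤ[X]} {d : ℤ} (P : AdelicPoint f d) : Prop :=
  ∀ (k : K) (e : ℤ), e ≠ 0 → Even (ram (values P k) e).ncard

omit [Fintype K] [DecidableEq K] in
theorem isSquare_of_local {n : ℤ} (hn : n ≠ 0) (hr : IsSquare (n : ℝ))
    (hp : ∀ p : Nat.Primes, IsSquare (n : ℚ_[(p : ℕ)])) : IsSquare n := by
  have hpos : 0 < n := by
    obtain ⟨r, hr⟩ := hr
    have h1 : (0 : ℝ) ≤ n := by rw [hr]; exact mul_self_nonneg r
    have h2 : 0 ≤ n := by exact_mod_cast h1
    omega
  obtain ⟨N, rfl⟩ := Int.eq_ofNat_of_zero_le hpos.le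
  obtain ⟨a, b, hab, hsq⟩ := Nat.sq_mul_squarefree N
  have hb0 : b ≠ 0 := by
    rintro rfl
    simp at hab
    rw [← hab] at hn
    simp at hn
  have ha : a = 1 := by
    by_contra ha1
    obtain ⟨p, hpp, hpa⟩ := Nat.exists_prime_and_dvd ha1
    haveI : Fact p.Prime := ⟨hpp⟩
    obtain ⟨r, hr⟩ := hp ⟨p, hpp⟩
    change (((N : ℕ) : ℤ) : ℚ_[p]) = r * r at hr
    obtain ⟨a', rfl⟩ := hpa
    have hpa' : ¬ ((p : ℕ) : ℤ) ∣ (a' : ℤ) := by
      intro h
      have h3 := Int.natCast_dvd_natCast.1 h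
      have h4 : p * p ∣ p * a' := Nat.mul_dvd_mul_left p h3
      have h5 := hsq p h4
      exact hpp.one_lt.ne' (Nat.isUnit_iff.1 h5)
    have hb0' : (b : ℚ_[p]) ≠ 0 := Nat.cast_ne_zero.2 hb0
    have h1 : ¬ (p : ℤ) ∣ (1 : ℤ) := by
      intro h
      have := Int.le_of_dvd one_pos h
      have := hpp.two_le
      omega
    apply padic_parity (p := p) (c := (b : ℚ_[p])) (c' := r) hpa' h1 hb0'
    rw [Int.cast_natCast, ← hab] at hr
    push_cast at hr ⊢
    linear_combination hr
  refine ⟨(b : ℤ), ?_⟩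
  rw [← hab, ha]
  push_cast
  ring

theorem isSquare_div {F : Type} [Field F] {a b c : F} (h1 : IsSquare (a * b)) (hb : b ≠ 0)
    (h2 : IsSquare (b * c)) : IsSquare (a * c) := by
  obtain ⟨r, hr⟩ := h1
  obtain ⟨s, hs⟩ := h2
  refine ⟨r * s / b, ?_⟩
  field_simp
  linear_combination hs * (a * b) + s ^ 2 * hr

theorem sel_of_orthogonal (hfin : S_FIN) (hval : S_VAL) (hex : S_EXACT) (f : K → ℤ[X])
    (hf : Admissible f) (d : ℤ) (hd : d ≠ 0) (P : AdelicPoint f d) (hP : Orthogonal P) :
    Pool.Agent.W262.TW.Sel f d := by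
  classical
  have hvr := hval K f hf d hd ℝ P.re
  have hvp := fun p : Nat.Primes => hval K f hf d hd ℚ_[(p : ℕ)] (P.pa p)
  obtain ⟨z, hz⟩ := hfin K f hf d hd
  have hex' : ∀ k, ∃ n : ℤ, Squarefree n ∧ IsSquare (value P.re k * (n : ℝ)) ∧
      ∀ p : Nat.Primes, IsSquare (value (P.pa p) k * (n : ℚ_[(p : ℕ)])) := by
    intro k
    apply hex (values P k) (hvr.1 k) (fun p => (hvp p).1 k)
    · have h1 : {p : Nat.Primes | (p : ℕ) ≤ z}.Finite := by
        have h2 : (Set.Iic z).Finite := Set.finite_Iic z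
        exact h2.preimage (Subtype.val_injective.injOn)
      apply h1.subset
      intro p hp
      by_contra hpz
      have hpz' : z < (p : ℕ) := not_le.1 hpz
      obtain ⟨m, c, hm, -, hmc⟩ := hz (p : ℕ) hpz' (P.pa p) k
      exact hp m c hm hmc
    · intro e he _
      apply hP k e
      rcases he with rfl | rfl | ⟨h1, h2⟩
      · norm_num
      · norm_num
      · rintro rfl
        norm_num at h2
  choose n hn1 hn2 hn3 using hex'
  have hn0 : ∀ k, n k ≠ 0 := fun k => (hn1 k).ne_zero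
  have hprod : ∀ {F : Type} [Field F] [CharZero F] (v : K → F), (∀ k, v k ≠ 0) →
      (∀ k, IsSquare (v k * (n k : F))) → IsSquare ((d : F) * ∏ k, v k) →
      IsSquare (((d * ∏ k, n k : ℤ)) : F) := by
    intro F _ _ v hv hvn hdv
    have h1 : IsSquare ((∏ k, v k) * ∏ k, (n k : F)) := by
      rw [← Finset.prod_mul_distrib]
      choose r hr using hvn
      refine ⟨∏ k, r k, ?_⟩
      rw [← Finset.prod_mul_distrib]
      exact Finset.prod_congr rfl fun k _ => hr k
    have h2 := isSquare_div hdv (Finset.prod_ne_zero_iff.2 fun k _ => hv k) h1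
    push_cast
    exact h2
  refine ⟨n, hn0, ?_, ?_, ?_⟩
  · apply isSquare_of_local
    · exact mul_ne_zero hd (Finset.prod_ne_zero_iff.2 fun k _ => hn0 k)
    · exact hprod (fun k => value P.re k) hvr.1 hn2 hvr.2.1
    · intro p
      exact hprod (fun k => value (P.pa p) k) (hvp p).1 (fun k => hn3 k p) (hvp p).2.1
  · refine ⟨P.re.x, P.re.w, P.re.ne, ?_⟩
    exact hvr.2.2 n hn0 hn2
  · intro p hp
    have h := hvp ⟨p, hp.out⟩
    refine ⟨(P.pa ⟨p, hp.out⟩).x, (P.pa ⟨p, hp.out⟩).w, (P.pa ⟨p, hp.out⟩).ne, ?_⟩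
    exact h.2.2 n hn0 (fun k => hn3 k ⟨p, hp.out⟩)

/-- the number of the ramified places is finite -/
theorem ram_finite (hfin : S_FIN) (h2 : S_ODD2) (f : K → ℤ[X]) (hf : Admissible f) (d : ℤ)
    (hd : d ≠ 0) (P : AdelicPoint f d) (k : K) (e : ℤ) (he : e ≠ 0) :
    (ram (values P k) e).Finite := by
  obtain ⟨z, hz⟩ := hfin K f hf d hd
  have h1 : {p : Nat.Primes | (p : ℕ) ≤ max z (max 2 e.natAbs)}.Finite := by
    have h2 : (Set.Iic (max z (max 2 e.natAbs))).Finite := Set.finite_Iic _
    exact h2.preimage (Subtype.val_injective.injOn)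
  apply ((h1.image some).insert none).subset
  intro v hv
  match v with
  | none => exact Or.inl rfl
  | some p =>
    refine Or.inr ⟨p, ?_, rfl⟩
    by_contra hpz
    have hpz' : max z (max 2 e.natAbs) < (p : ℕ) := not_le.1 hpz
    obtain ⟨m, c, hm, hc, hmc⟩ := hz (p : ℕ) (by omega) (P.pa p) k
    apply hv
    change Splits (value (P.pa p) k) _
    rw [hmc, splits_mul_sq hc]
    refine h2 _ (by omega) m e hm ?_
    intro h
    have h3 := Int.natCast_dvd.1 h
    have := Nat.le_of_dvd (Int.natAbs_pos.2 he) h3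
    omega

end K

end Pool.Agent.W313.BMX
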